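import Pool.Agent.V5helper35.AS.Defs
import Pool.Agent.H528.MCG.Nielsen

/-!
Project AS (helper35), job STR: every automorphism of `F_2` is a product `conj g * rho w * s * t`.
-/

set_option autoImplicit false

namespace Pool.Agent.V5helper76.AS

open FreeGroup (of)
open Pool.Agent.V5helper35.AS

@[simp] theorem dli_X : (MulEquiv.symm dl) (of 0) = of 0 := dl.injective (by simp)
@[simp] theorem dli_Y : (MulEquiv.symm dl) (of 1) = (of 0)⁻¹ * (of 0)⁻¹ * of 1 :=
  dl.injective (by simp [mul_assoc])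
@[simp] theorem epi_X : (MulEquiv.symm ep) (of 0) = of 0 * of 1 * of 1 :=
  ep.injective (by simp [mul_assoc])
@[simp] theorem epi_Y : (MulEquiv.symm ep) (of 1) = of 1 := ep.injective (by simp)

theorem io_io : io * io = 1 := by apply aut_ext2 <;> simp [MulAut.mul_apply]
theorem ee_ee : ee * ee = 1 := by apply aut_ext2 <;> simp [MulAut.mul_apply]
theorem sg_sg : sg * sg = 1 := by apply aut_ext2 <;> simp [MulAut.mul_apply]
theorem mu_mu : mu * mu = ep⁻¹ := by apply aut_ext2 <;> simp [MulAut.mul_apply]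
theorem io_ee : io * ee = ee * io := by apply aut_ext2 <;> simp [MulAut.mul_apply]

theorem mul_conj (a : MulAut F) (h : F) : a * MulAut.conj h = MulAut.conj (a h) * a := by
  ext u
  simp [MulAut.mul_apply, MulAut.conj_apply]

theorem ee_dl : ee * dl = dl⁻¹ * ee := by apply aut_ext2 <;> simp [MulAut.mul_apply, mul_assoc]
theorem ee_ep : ee * ep = MulAut.conj (of 1 * of 1) * ep⁻¹ * ee := by
  apply aut_ext2 <;> simp [MulAut.mul_apply, MulAut.conj_apply, mul_assoc]
theorem io_dl : io * dl = MulAut.conj ((of 0)⁻¹ * (of 0)⁻¹) * dl * io := by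
  apply aut_ext2 <;> simp [MulAut.mul_apply, MulAut.conj_apply, mul_assoc]
theorem io_ep : io * ep = MulAut.conj ((of 1)⁻¹ * (of 1)⁻¹) * ep * io := by
  apply aut_ext2 <;> simp [MulAut.mul_apply, MulAut.conj_apply, mul_assoc]

theorem sg_dl : sg * dl = MulAut.conj (of 1 * of 1) * ep⁻¹ * sg := by
  apply aut_ext2 <;> simp [MulAut.mul_apply, MulAut.conj_apply, mul_assoc]
theorem sg_ep : sg * ep = MulAut.conj (of 0 * of 0) * dl⁻¹ * sg := by
  apply aut_ext2 <;> simp [MulAut.mul_apply, MulAut.conj_apply, mul_assoc]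
theorem sg_io : sg * io = io * sg := by
  apply aut_ext2 <;> simp [MulAut.mul_apply, MulAut.conj_apply, mul_assoc]
theorem sg_ee : sg * ee = ee * io * sg := by
  apply aut_ext2 <;> simp [MulAut.mul_apply, MulAut.conj_apply, mul_assoc]

theorem mu_dl : mu * dl = MulAut.conj (of 0 * of 1 * of 0 * of 1 * of 1 * of 0 * of 1 * of 1) *
    ep⁻¹ * dl⁻¹ * io * mu := by
  apply aut_ext2 <;> simp [MulAut.mul_apply, MulAut.conj_apply, mul_assoc]
theorem mu_ep : mu * ep = ep * mu := by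
  apply aut_ext2 <;> simp [MulAut.mul_apply, MulAut.conj_apply, mul_assoc]
theorem mu_io : mu * io = MulAut.conj ((of 1)⁻¹) * io * mu := by
  apply aut_ext2 <;> simp [MulAut.mul_apply, MulAut.conj_apply, mul_assoc]
theorem mu_ee : mu * ee = MulAut.conj (of 1) * ep⁻¹ * ee * mu := by
  apply aut_ext2 <;> simp [MulAut.mul_apply, MulAut.conj_apply, mul_assoc]

theorem braid : mu * sg * mu = MulAut.conj (of 1) * ep⁻¹ * ee * io * (sg * mu * sg) := by
  apply aut_ext2 <;> simp [MulAut.mul_apply, MulAut.conj_apply, mul_assoc]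

/-- the four signs -/
def Sgn (s : MulAut F) : Prop := s = 1 ∨ s = io ∨ s = ee ∨ s = ee * io

theorem io_dlE : ∀ w : F, ∃ h v : F, io * rho w = MulAut.conj h * rho v * io := by
  intro w
  induction w using FreeGroup.induction_on with
  | C1 => exact ⟨1, 1, by simp⟩
  | of i =>
    fin_cases i
    · refine ⟨(of 0)⁻¹ * (of 0)⁻¹, of 0, ?_⟩
      change io * rho (of 0) = _ * rho (of 0) * io
      rw [rho_X]; exact io_dl
    · refine ⟨(of 1)⁻¹ * (of 1)⁻¹, of 1, ?_⟩
      change io * rho (of 1) = _ * rho (of 1) * io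
      rw [rho_Y]; exact io_ep
  | inv_of i ih =>
    obtain ⟨h, v, e⟩ := ih
    refine ⟨(rho v)⁻¹ h⁻¹, v⁻¹, ?_⟩
    have e2 : io * (rho (of i))⁻¹ = (MulAut.conj h * rho v)⁻¹ * io := by
      rw [eq_inv_mul_iff_mul_eq, ← mul_assoc, ← e, mul_assoc, mul_inv_cancel, mul_one]
    rw [map_inv, e2, mul_inv_rev, ← map_inv MulAut.conj, mul_conj, map_inv rho v]
  | mul a b iha ihb =>
    obtain ⟨h, v, e⟩ := iha
    obtain ⟨h', v', e'⟩ := ihb
    refine ⟨h * rho v h', v * v', ?_⟩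
    rw [map_mul, ← mul_assoc, e, mul_assoc, e', map_mul, map_mul]
    have := mul_conj (rho v) h'
    calc _ = MulAut.conj h * (rho v * MulAut.conj h') * rho v' * io := by group
      _ = _ := by rw [this]; group

theorem ee_dlE : ∀ w : F, ∃ h v : F, ee * rho w = MulAut.conj h * rho v * ee := by
  intro w
  induction w using FreeGroup.induction_on with
  | C1 => exact ⟨1, 1, by simp⟩
  | of i =>
    fin_cases i
    · refine ⟨1, (of 0)⁻¹, ?_⟩
      change ee * rho (of 0) = _ * rho (of 0)⁻¹ * ee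
      rw [map_inv, rho_X, map_one, one_mul]; exact ee_dl
    · refine ⟨of 1 * of 1, (of 1)⁻¹, ?_⟩
      change ee * rho (of 1) = _ * rho (of 1)⁻¹ * ee
      rw [map_inv rho, rho_Y]; exact ee_ep
  | inv_of i ih =>
    obtain ⟨h, v, e⟩ := ih
    refine ⟨(rho v)⁻¹ h⁻¹, v⁻¹, ?_⟩
    have e2 : ee * (rho (of i))⁻¹ = (MulAut.conj h * rho v)⁻¹ * ee := by
      rw [eq_inv_mul_iff_mul_eq, ← mul_assoc, ← e, mul_assoc, mul_inv_cancel, mul_one]
    rw [map_inv, e2, mul_inv_rev, ← map_inv MulAut.conj, mul_conj, map_inv rho v]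
  | mul a b iha ihb =>
    obtain ⟨h, v, e⟩ := iha
    obtain ⟨h', v', e'⟩ := ihb
    refine ⟨h * rho v h', v * v', ?_⟩
    rw [map_mul, ← mul_assoc, e, mul_assoc, e', map_mul, map_mul]
    have := mul_conj (rho v) h'
    calc _ = MulAut.conj h * (rho v * MulAut.conj h') * rho v' * ee := by group
      _ = _ := by rw [this]; group

theorem sgn_rho {s : MulAut F} (hs : Sgn s) (w : F) :
    ∃ h v : F, s * rho w = MulAut.conj h * rho v * s := by
  rcases hs with rfl | rfl | rfl | rfl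
  · exact ⟨1, w, by simp⟩
  · exact io_dlE w
  · exact ee_dlE w
  · obtain ⟨h, v, e⟩ := io_dlE w
    obtain ⟨h', v', e'⟩ := ee_dlE v
    refine ⟨ee h * h', v', ?_⟩
    have := mul_conj ee h
    calc ee * io * rho w = ee * (io * rho w) := by group
      _ = (ee * MulAut.conj h) * rho v * io := by rw [e]; group
      _ = MulAut.conj (ee h) * (ee * rho v) * io := by rw [this]; group
      _ = _ := by rw [e', map_mul]; group

/-- the normal forms -/
def U0 (a : MulAut F) : Prop := ∃ g w : F, ∃ s : MulAut F, Sgn s ∧ a = MulAut.conj g * rho w * s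

theorem U0_one : U0 1 := ⟨1, 1, 1, Or.inl rfl, by simp⟩

theorem U0_conj {a : MulAut F} (ha : U0 a) (h : F) : U0 (a * MulAut.conj h) := by
  obtain ⟨g, w, s, hs, rfl⟩ := ha
  refine ⟨(MulAut.conj g * rho w * s) h * g, w, s, hs, ?_⟩
  rw [mul_conj, map_mul]
  group

theorem U0_rho {a : MulAut F} (ha : U0 a) (v : F) : U0 (a * rho v) := by
  obtain ⟨g, w, s, hs, rfl⟩ := ha
  obtain ⟨h, v', e⟩ := sgn_rho hs v
  refine ⟨g * rho w h, w * v', s, hs, ?_⟩
  have := mul_conj (rho w) h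
  calc _ = MulAut.conj g * rho w * (s * rho v) := by group
    _ = MulAut.conj g * (rho w * MulAut.conj h) * rho v' * s := by rw [e]; group
    _ = _ := by rw [this, map_mul, map_mul]; group

theorem U0_io {a : MulAut F} (ha : U0 a) : U0 (a * io) := by
  obtain ⟨g, w, s, hs, rfl⟩ := ha
  rcases hs with rfl | rfl | rfl | rfl
  · exact ⟨g, w, io, Or.inr (Or.inl rfl), by rw [mul_one]⟩
  · exact ⟨g, w, 1, Or.inl rfl, by rw [mul_assoc, io_io]⟩
  · exact ⟨g, w, ee * io, Or.inr (Or.inr (Or.inr rfl)), by rw [mul_assoc]⟩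
  · exact ⟨g, w, ee, Or.inr (Or.inr (Or.inl rfl)), by rw [mul_assoc, mul_assoc ee, io_io, mul_one]⟩

theorem U0_ee {a : MulAut F} (ha : U0 a) : U0 (a * ee) := by
  obtain ⟨g, w, s, hs, rfl⟩ := ha
  rcases hs with rfl | rfl | rfl | rfl
  · exact ⟨g, w, ee, Or.inr (Or.inr (Or.inl rfl)), by rw [mul_one]⟩
  · exact ⟨g, w, ee * io, Or.inr (Or.inr (Or.inr rfl)), by rw [mul_assoc, io_ee]⟩
  · exact ⟨g, w, 1, Or.inl rfl, by rw [mul_assoc, ee_ee]⟩
  · exact ⟨g, w, io, Or.inr (Or.inl rfl), by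
      rw [mul_assoc, mul_assoc ee, io_ee, ← mul_assoc ee, ee_ee, one_mul]⟩

theorem U0_sgn {a s : MulAut F} (ha : U0 a) (hs : Sgn s) : U0 (a * s) := by
  rcases hs with rfl | rfl | rfl | rfl
  · rwa [mul_one]
  · exact U0_io ha
  · exact U0_ee ha
  · rw [← mul_assoc]; exact U0_io (U0_ee ha)

theorem sgn_inv {s : MulAut F} (hs : Sgn s) : s⁻¹ = s := by
  rw [inv_eq_iff_mul_eq_one]
  rcases hs with rfl | rfl | rfl | rfl
  · exact mul_one 1
  · exact io_io
  · exact ee_ee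
  · calc ee * io * (ee * io) = ee * (io * ee) * io := by group
      _ = (ee * ee) * (io * io) := by rw [io_ee]; group
      _ = 1 := by rw [io_io, ee_ee, mul_one]

/-- the subgroup of the normal forms -/
def U : Subgroup (MulAut F) where
  carrier := {a | U0 a}
  one_mem' := U0_one
  mul_mem' := by
    rintro a b ha ⟨g, w, s, hs, rfl⟩
    change U0 _
    rw [← mul_assoc, ← mul_assoc]
    exact U0_sgn (U0_rho (U0_conj ha g) w) hs
  inv_mem' := by
    rintro a ⟨g, w, s, hs, rfl⟩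
    change U0 _
    rw [mul_inv_rev, mul_inv_rev, sgn_inv hs, ← map_inv, ← map_inv, ← mul_assoc, ← one_mul s]
    exact U0_conj (U0_rho (U0_sgn U0_one hs) _) _

theorem mem_U {a : MulAut F} : a ∈ U ↔ U0 a := Iff.rfl

theorem conj_mem (g : F) : MulAut.conj g ∈ U := ⟨g, 1, 1, Or.inl rfl, by simp⟩
theorem rho_mem (w : F) : rho w ∈ U := ⟨1, w, 1, Or.inl rfl, by simp⟩
theorem dl_mem : dl ∈ U := by simpa using rho_mem (of 0)
theorem ep_mem : ep ∈ U := by simpa using rho_mem (of 1)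
theorem io_mem : io ∈ U := ⟨1, 1, io, Or.inr (Or.inl rfl), by simp⟩
theorem ee_mem : ee ∈ U := ⟨1, 1, ee, Or.inr (Or.inr (Or.inl rfl)), by simp⟩

theorem U_le (V : Subgroup (MulAut F)) (h1 : ∀ g, MulAut.conj g ∈ V) (h2 : dl ∈ V) (h3 : ep ∈ V)
    (h4 : io ∈ V) (h5 : ee ∈ V) : U ≤ V := by
  have hr : ∀ w, rho w ∈ V := by
    intro w
    induction w using FreeGroup.induction_on with
    | C1 => rw [map_one]; exact V.one_mem
    | of i =>
      fin_cases i
      · simpa using h2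
      · simpa using h3
    | inv_of i ih => rw [map_inv]; exact V.inv_mem ih
    | mul a b iha ihb => rw [map_mul]; exact V.mul_mem iha ihb
  rintro a ⟨g, w, s, hs, rfl⟩
  refine V.mul_mem (V.mul_mem (h1 g) (hr w)) ?_
  rcases hs with rfl | rfl | rfl | rfl
  · exact V.one_mem
  · exact h4
  · exact h5
  · exact V.mul_mem h5 h4

theorem conjU (φ : MulAut F) (h2 : φ * dl * φ⁻¹ ∈ U) (h3 : φ * ep * φ⁻¹ ∈ U) (h4 : φ * io * φ⁻¹ ∈ U)
    (h5 : φ * ee * φ⁻¹ ∈ U) : ∀ a ∈ U, φ * a * φ⁻¹ ∈ U := by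
  have := U_le (U.comap (MulAut.conj φ).toMonoidHom) (fun g => ?_) h2 h3 h4 h5
  · exact fun a ha => this ha
  · change φ * MulAut.conj g * φ⁻¹ ∈ U
    rw [mul_conj, mul_assoc, mul_inv_cancel, mul_one]
    exact conj_mem _

theorem conjU_sg : ∀ a ∈ U, sg * a * sg⁻¹ ∈ U := by
  refine conjU sg ?_ ?_ ?_ ?_
  · rw [sg_dl, mul_inv_cancel_right]
    exact U.mul_mem (conj_mem _) (U.inv_mem ep_mem)
  · rw [sg_ep, mul_inv_cancel_right]
    exact U.mul_mem (conj_mem _) (U.inv_mem dl_mem)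
  · rw [sg_io, mul_inv_cancel_right]
    exact io_mem
  · rw [sg_ee, mul_inv_cancel_right]
    exact U.mul_mem ee_mem io_mem

theorem conjU_mu : ∀ a ∈ U, mu * a * mu⁻¹ ∈ U := by
  refine conjU mu ?_ ?_ ?_ ?_
  · rw [mu_dl, mul_inv_cancel_right]
    exact U.mul_mem (U.mul_mem (U.mul_mem (conj_mem _) (U.inv_mem ep_mem)) (U.inv_mem dl_mem)) io_mem
  · rw [mu_ep, mul_inv_cancel_right]
    exact ep_mem
  · rw [mu_io, mul_inv_cancel_right]
    exact U.mul_mem (conj_mem _) io_mem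
  · rw [mu_ee, mul_inv_cancel_right]
    exact U.mul_mem (U.mul_mem (conj_mem _) (U.inv_mem ep_mem)) ee_mem

theorem sg_inv : sg⁻¹ = sg := by rw [inv_eq_iff_mul_eq_one]; exact sg_sg
theorem mu_inv : mu⁻¹ = ep * mu := by
  rw [inv_eq_iff_mul_eq_one, ← mul_assoc, mu_ep, mul_assoc, mu_mu, mul_inv_cancel]

/-- the six representatives -/
def Six (t : MulAut F) : Prop :=
  t = 1 ∨ t = sg ∨ t = mu ∨ t = sg * mu ∨ t = mu * sg ∨ t = sg * mu * sg

theorem conj_six {t : MulAut F} (ht : Six t) : ∀ a ∈ U, t * a * t⁻¹ ∈ U := by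
  intro a ha
  rcases ht with rfl | rfl | rfl | rfl | rfl | rfl
  · simpa using ha
  · exact conjU_sg a ha
  · exact conjU_mu a ha
  · have := conjU_sg _ (conjU_mu a ha)
    rw [mul_inv_rev]
    simpa only [mul_assoc] using this
  · have := conjU_mu _ (conjU_sg a ha)
    rw [mul_inv_rev]
    simpa only [mul_assoc] using this
  · have := conjU_sg _ (conjU_mu _ (conjU_sg a ha))
    rw [mul_inv_rev, mul_inv_rev]
    simpa only [mul_assoc] using this

/-- the elements of the form `u * t` -/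
def QQ (a : MulAut F) : Prop := ∃ u ∈ U, ∃ t, Six t ∧ a = u * t

theorem QQ_U {a b : MulAut F} (ha : QQ a) (hb : b ∈ U) : QQ (a * b) := by
  obtain ⟨u, hu, t, ht, rfl⟩ := ha
  refine ⟨u * (t * b * t⁻¹), U.mul_mem hu (conj_six ht b hb), t, ht, ?_⟩
  group

theorem QQ_sg {a : MulAut F} (ha : QQ a) : QQ (a * sg) := by
  obtain ⟨u, hu, t, ht, rfl⟩ := ha
  rcases ht with rfl | rfl | rfl | rfl | rfl | rfl
  · exact ⟨u, hu, sg, Or.inr (Or.inl rfl), by group⟩
  · exact ⟨u, hu, 1, Or.inl rfl, by rw [mul_assoc, sg_sg]⟩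
  · exact ⟨u, hu, mu * sg, Or.inr (Or.inr (Or.inr (Or.inr (Or.inl rfl)))), by group⟩
  · exact ⟨u, hu, sg * mu * sg, Or.inr (Or.inr (Or.inr (Or.inr (Or.inr rfl)))), by group⟩
  · exact ⟨u, hu, mu, Or.inr (Or.inr (Or.inl rfl)), by rw [mul_assoc, mul_assoc mu, sg_sg, mul_one]⟩
  · exact ⟨u, hu, sg * mu, Or.inr (Or.inr (Or.inr (Or.inl rfl))), by
      rw [mul_assoc, mul_assoc (sg * mu), sg_sg, mul_one]⟩

theorem QQ_mu {a : MulAut F} (ha : QQ a) : QQ (a * mu) := by
  obtain ⟨u, hu, t, ht, rfl⟩ := ha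
  have hb : MulAut.conj (of 1) * ep⁻¹ * ee * io ∈ U :=
    U.mul_mem (U.mul_mem (U.mul_mem (conj_mem _) (U.inv_mem ep_mem)) ee_mem) io_mem
  rcases ht with rfl | rfl | rfl | rfl | rfl | rfl
  · exact ⟨u, hu, mu, Or.inr (Or.inr (Or.inl rfl)), by group⟩
  · exact ⟨u, hu, sg * mu, Or.inr (Or.inr (Or.inr (Or.inl rfl))), by group⟩
  · refine ⟨u * ep⁻¹, U.mul_mem hu (U.inv_mem ep_mem), 1, Or.inl rfl, ?_⟩
    rw [mul_assoc, mu_mu, mul_one]
  · refine ⟨u * (sg * ep⁻¹ * sg⁻¹), U.mul_mem hu (conjU_sg _ (U.inv_mem ep_mem)), sg,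
      Or.inr (Or.inl rfl), ?_⟩
    rw [mul_assoc, mul_assoc sg, mu_mu]
    group
  · refine ⟨u * (MulAut.conj (of 1) * ep⁻¹ * ee * io), U.mul_mem hu hb, sg * mu * sg,
      Or.inr (Or.inr (Or.inr (Or.inr (Or.inr rfl)))), ?_⟩
    rw [mul_assoc, braid, mul_assoc u]
  · refine ⟨u * (sg * (MulAut.conj (of 1) * ep⁻¹ * ee * io) * sg⁻¹),
      U.mul_mem hu (conjU_sg _ hb), mu * sg, Or.inr (Or.inr (Or.inr (Or.inr (Or.inl rfl)))), ?_⟩
    have e : u * (sg * mu * sg) * mu = u * (sg * (mu * sg * mu)) := by group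
    rw [e, braid]
    have e2 : sg * (sg * mu * sg) = mu * sg := by
      rw [← mul_assoc, ← mul_assoc, sg_sg, one_mul]
    rw [sg_inv]
    calc _ = u * (sg * (MulAut.conj (of 1) * ep⁻¹ * ee * io) * (sg * mu * sg)) := by group
      _ = u * (sg * (MulAut.conj (of 1) * ep⁻¹ * ee * io) * (sg * (sg * (sg * mu * sg)))) := by
        rw [← mul_assoc sg sg, sg_sg, one_mul]
      _ = _ := by rw [e2]; group

theorem QQ_one : QQ 1 := ⟨1, U.one_mem, 1, Or.inl rfl, by simp⟩

theorem all_QQ (a : MulAut F) : QQ a := by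
  set S : Set (MulAut F) := {sg, ee, mu} ∪ Set.range MulAut.conj with hS
  have htop : Subgroup.closure S = ⊤ := by
    refine Pool.Agent.H528.Nielsen.nielsen (Subgroup.closure S) (σ := sg) (ε := ee) (μ := mu)
      ?_ ?_ ?_ ?_ sg_X sg_Y ee_X ee_Y mu_X mu_Y
    · exact Subgroup.subset_closure (Or.inl (by simp))
    · exact Subgroup.subset_closure (Or.inl (by simp))
    · exact Subgroup.subset_closure (Or.inl (by simp))
    · exact fun g => Subgroup.subset_closure (Or.inr ⟨g, rfl⟩)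
  have ha : a ∈ Subgroup.closure S := by rw [htop]; exact Subgroup.mem_top a
  induction ha using Subgroup.closure_induction_right with
  | one => exact QQ_one
  | mul_right x hx y hy ih =>
    rcases hy with hy | ⟨g, rfl⟩
    · rcases hy with rfl | rfl | rfl
      · exact QQ_sg ih
      · exact QQ_U ih ee_mem
      · exact QQ_mu ih
    · exact QQ_U ih (conj_mem g)
  | mul_inv_cancel x hx y hy ih =>
    rcases hy with hy | ⟨g, rfl⟩
    · rcases hy with rfl | rfl | rfl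
      · rw [sg_inv]; exact QQ_sg ih
      · exact QQ_U ih (U.inv_mem ee_mem)
      · rw [mu_inv, ← mul_assoc]; exact QQ_mu (QQ_U ih ep_mem)
    · exact QQ_U ih (U.inv_mem (conj_mem g))

theorem t_STR : S_STR := by
  intro a
  obtain ⟨u, ⟨g, w, s, hs, rfl⟩, t, ht, rfl⟩ := all_QQ a
  exact ⟨g, w, s, t, hs, ht, rfl⟩

end Pool.Agent.V5helper76.AS
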