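import Pool.Agent.V5helper35.AS.StmB
import Pool.Agent.V5helper65.AS.GAD

/-!
# Project AS, job GAD2: `F_l * ⟨s⟩` induces the full profinite topology on `F_l * ⟨s w s⁻¹⟩`
-/

set_option autoImplicit false

namespace Pool.Agent.V5helper76.AS

open Pool.Agent.R387.TC Pool.Agent.N77.CS Pool.Agent.V5helper35.AS Pool.Agent.V5helper65.AS

theorem ext_perm {Q Y : Type} [Finite Y] (f g : Q → Y) (hf : Function.Injective f)
    (hg : Function.Injective g) : ∃ σ : Equiv.Perm Y, ∀ q, σ (f q) = g q := by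
  classical
  cases nonempty_fintype Y
  obtain ⟨e, he⟩ : ∃ e : {x // x ∈ Set.range f} ≃ {x // x ∈ Set.range g},
      ∀ q, ((e ⟨f q, q, rfl⟩ : {x // x ∈ Set.range g}) : Y) = g q := by
    refine ⟨(Equiv.ofInjective f hf).symm.trans (Equiv.ofInjective g hg), fun q => ?_⟩
    have h1 : (Equiv.ofInjective f hf).symm ⟨f q, q, rfl⟩ = q := by
      rw [Equiv.symm_apply_eq]
      rfl
    rw [Equiv.trans_apply, h1]
    rfl
  refine ⟨e.extendSubtype, fun q => ?_⟩
  rw [Equiv.extendSubtype_apply_of_mem e (f q) ⟨q, rfl⟩]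
  exact he q

theorem t_GAD2 (hCYC : S_CYC) : S_GAD2 := by
  intro l w hw KB hKB hfi
  classical
  have hQf : Finite (F (l + 1) ⧸ KB) := inferInstance
  obtain ⟨t, ht⟩ : ∃ t : F (l + 1) ⧸ KB, t = (QuotientGroup.mk' KB) (tt l) := ⟨_, rfl⟩
  have hN : 1 ≤ orderOf t := orderOf_pos t
  obtain ⟨Z, hZ, ρ, z, hz1, hz2⟩ := hCYC l w hw (orderOf t) hN
  -- representatives
  obtain ⟨s, hs⟩ : ∃ s : (F (l + 1) ⧸ KB) → (F (l + 1) ⧸ KB), s = fun q =>
      Quotient.out (Quotient.mk (QuotientGroup.rightRel (Subgroup.zpowers t)) q) := ⟨_, rfl⟩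
  have hs1 : ∀ q, s (t * q) = s q := by
    intro q
    have h1 : Quotient.mk (QuotientGroup.rightRel (Subgroup.zpowers t)) (t * q) =
        Quotient.mk (QuotientGroup.rightRel (Subgroup.zpowers t)) q := by
      apply Quotient.sound
      change (QuotientGroup.rightRel (Subgroup.zpowers t)) (t * q) q
      rw [QuotientGroup.rightRel_apply]
      refine ⟨-1, ?_⟩
      change t ^ (-1 : ℤ) = _
      group
    simp only [hs, h1]
  have hs2 : ∀ q, ∃ j : ℤ, q = t ^ j * s q := by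
    intro q
    have h1 : Quotient.mk (QuotientGroup.rightRel (Subgroup.zpowers t)) (s q) =
        Quotient.mk (QuotientGroup.rightRel (Subgroup.zpowers t)) q := by
      simp only [hs]
      exact Quotient.out_eq _
    have h2 : (QuotientGroup.rightRel (Subgroup.zpowers t)) (s q) q := Quotient.exact h1
    rw [QuotientGroup.rightRel_apply] at h2
    obtain ⟨j, hj⟩ := h2
    refine ⟨j, ?_⟩
    change t ^ j = _ at hj
    rw [hj]
    group
  choose j hj using hs2
  have hjt : ∀ q, (orderOf t : ℤ) ∣ j (t * q) - (j q + 1) := by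
    intro q
    rw [pow_eq']
    have h1 := hj (t * q)
    rw [hs1] at h1
    have h2 : t * q = t ^ (j q + 1) * s q := by
      conv_lhs => rw [hj q]
      rw [add_comm (j q) 1, zpow_add, zpow_one, mul_assoc]
    rw [h2] at h1
    have h3 := mul_right_cancel h1
    rw [← h2] at h3
    exact h3.symm
  -- the embedding
  obtain ⟨ι, hι⟩ : ∃ ι : (F (l + 1) ⧸ KB) ↪ Z × (F (l + 1) ⧸ KB),
      ∀ q, ι q = ((ρ w ^ j q) z, s q) := by
    refine ⟨⟨fun q => ((ρ w ^ j q) z, s q), ?_⟩, fun q => rfl⟩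
    intro q q' h
    have h1 : (ρ w ^ j q) z = (ρ w ^ j q') z := congrArg Prod.fst h
    have h2 : s q = s q' := congrArg Prod.snd h
    have h3 := per_eq' hN hz1 hz2 h1
    rw [pow_eq'] at h3
    rw [hj q, hj q', h3, h2]
  have hιt : ∀ q, ι (t * q) = (ρ w (ι q).1, (ι q).2) := by
    intro q
    rw [hι, hι, hs1]
    have h1 := per_eq hz1 (hjt q)
    rw [h1, add_comm (j q) 1, zpow_add, zpow_one]
    rfl
  -- the action
  obtain ⟨g, hg1, hg2⟩ : ∃ g : F l →* Equiv.Perm ((F (l + 1) ⧸ KB) ⊕ (Z × (F (l + 1) ⧸ KB))),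
      (∀ y q, g y (Sum.inl q) = Sum.inl ((QuotientGroup.mk' KB) (inc l y) * q)) ∧
      (∀ y a, g y (Sum.inr a) = Sum.inr (actA (F (l + 1) ⧸ KB) ρ y a)) := by
    refine ⟨(Equiv.Perm.sumCongrHom (F (l + 1) ⧸ KB) (Z × (F (l + 1) ⧸ KB))).comp
      (MonoidHom.prod ((MulAction.toPermHom (F (l + 1) ⧸ KB)
      (F (l + 1) ⧸ KB)).comp ((QuotientGroup.mk' KB).comp (inc l)))
        (actA (F (l + 1) ⧸ KB) ρ)), ?_, ?_⟩
    · intro y q
      rfl
    · intro y a
      rfl
  obtain ⟨σ, hσ⟩ := ext_perm (Q := F (l + 1) ⧸ KB)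
    (Y := (F (l + 1) ⧸ KB) ⊕ (Z × (F (l + 1) ⧸ KB))) (fun q => Sum.inr (ι q)) Sum.inl
    (fun a b h => ι.injective (Sum.inr_injective h)) Sum.inl_injective
  obtain ⟨Φ, hΦ⟩ : ∃ Φ, Φ = homExt g σ := ⟨_, rfl⟩
  have hΦi : ∀ y, Φ (inc l y) = g y := fun y => by rw [hΦ]; exact homExt_inc _ _ _
  have hΦt : Φ (tt l) = σ := by rw [hΦ]; exact homExt_tt _ _
  have key : ∀ x : F (l + 1), ∀ q, Φ (ehn w x) (Sum.inl q) =
      Sum.inl ((QuotientGroup.mk' KB) x * q) := by
    intro x
    induction x using FreeGroup.induction_on with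
    | C1 =>
      intro q
      rw [map_one, map_one, map_one, one_mul]
      rfl
    | of i =>
      intro q
      induction i using Fin.lastCases with
      | last =>
        have h1 : ehn w (FreeGroup.of (Fin.last l)) = tt l * inc l w * (tt l)⁻¹ := homExt_tt _ _
        have h2 : σ⁻¹ (Sum.inl q) = Sum.inr (ι q) := by
          rw [Equiv.Perm.inv_eq_iff_eq]
          exact (hσ q).symm
        rw [h1, map_mul Φ, map_mul Φ, map_inv Φ, hΦt, hΦi, Equiv.Perm.mul_apply,
          Equiv.Perm.mul_apply, h2, hg2, actA_apply, ← hιt, ht]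
        exact hσ _
      | cast i =>
        have h1 : inc l (FreeGroup.of i) = FreeGroup.of i.castSucc := by simp [inc]
        rw [← h1]
        have h2 : ehn w (inc l (FreeGroup.of i)) = inc l (FreeGroup.of i) := homExt_inc _ _ _
        rw [h2, hΦi, hg1]
    | inv_of i ih =>
      intro q
      have h1 := ih ((QuotientGroup.mk' KB) (FreeGroup.of i)⁻¹ * q)
      rw [← mul_assoc, ← map_mul, mul_inv_cancel, map_one, one_mul] at h1
      rw [map_inv (ehn w), map_inv Φ, Equiv.Perm.inv_eq_iff_eq]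
      exact h1.symm
    | mul x y hx hy =>
      intro q
      rw [map_mul (ehn w), map_mul Φ, Equiv.Perm.mul_apply, hy, hx,
        map_mul (QuotientGroup.mk' KB), mul_assoc]
  refine ⟨core (l + 1) (Equiv.Perm ((F (l + 1) ⧸ KB) ⊕ (Z × (F (l + 1) ⧸ KB)))),
    core_char _ _, ?_, ?_⟩
  · exact core_fin _ _
  · intro x hx
    rw [mem_core] at hx
    have h1 := key x 1
    rw [hx Φ, mul_one] at h1
    have h2 : (1 : F (l + 1) ⧸ KB) = (QuotientGroup.mk' KB) x := Sum.inl_injective h1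
    exact (QuotientGroup.eq_one_iff x).1 h2.symm

end Pool.Agent.V5helper76.AS
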